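import Pool.Agent.Helper46.NB.Stmts

/-!
Project NB: ST_P4 (two edges with a common vertex retain two different colours).
-/

set_option autoImplicit false

namespace Pool.Agent.Helper17.NB

open Finset Pool.Agent.Helper46.NB
open scoped Classical

noncomputable section

/-- an edge of `E` has exactly `2t-2` neighbours whose list contains a given colour of its list -/
theorem adj_card {V : Type} {E : Finset (Sym2 V)} {L : Sym2 V → Finset ℕ} {l t D : ℕ}
    (hR : Reg E L l t D) {e : Sym2 V} (he : e ∈ E) {c : ℕ} (hc : c ∈ L e) :
    #(E.filter fun h => Adj e h ∧ c ∈ L h) = 2 * t - 2 ∧ 1 ≤ t := by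
  induction e using Sym2.ind with
  | _ v w =>
  have hvw : v ≠ w := fun h => hR.loop _ he (by simp [h])
  have ev : s(v, w) ∈ T E L v c := by simp [T, he, hc]
  have ew : s(v, w) ∈ T E L w c := by simp [T, he, hc]
  have cv : #(T E L v c) = t := by
    rcases hR.col v c with h | h
    · rw [h] at ev; simp at ev
    · exact h
  have cw : #(T E L w c) = t := by
    rcases hR.col w c with h | h
    · rw [h] at ew; simp at ew
    · exact h
  have t1 : 1 ≤ t := by rw [← cv]; exact Finset.card_pos.2 ⟨_, ev⟩
  have hint : T E L v c ∩ T E L w c = {s(v, w)} := by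
    ext h
    simp only [mem_inter, mem_singleton]
    constructor
    · rintro ⟨h1, h2⟩
      simp only [T, mem_filter] at h1 h2
      exact (Sym2.mem_and_mem_iff hvw).1 ⟨h1.2.1, h2.2.1⟩
    · rintro rfl
      exact ⟨ev, ew⟩
  have hset : (E.filter fun h => Adj s(v, w) h ∧ c ∈ L h) =
      (T E L v c ∪ T E L w c).erase s(v, w) := by
    ext h
    simp only [mem_filter, mem_erase, mem_union, T, Adj, Sym2.mem_iff]
    constructor
    · rintro ⟨hE, ⟨hne, x, hx, hxh⟩, hcl⟩
      refine ⟨fun h => hne h.symm, ?_⟩
      rcases hx with rfl | rfl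
      · exact Or.inl ⟨hE, hxh, hcl⟩
      · exact Or.inr ⟨hE, hxh, hcl⟩
    · rintro ⟨hne, h | h⟩
      · exact ⟨h.1, ⟨fun h => hne h.symm, v, Or.inl rfl, h.2.1⟩, h.2.2⟩
      · exact ⟨h.1, ⟨fun h => hne h.symm, w, Or.inr rfl, h.2.1⟩, h.2.2⟩
  have hu := Finset.card_union_add_card_inter (T E L v c) (T E L w c)
  rw [hint, cv, cw, Finset.card_singleton] at hu
  refine ⟨?_, t1⟩
  rw [hset, Finset.card_erase_of_mem (Finset.mem_union_left _ ev)]
  omega

/-- monotonicity of `Pr` -/
theorem Pr_mono {V : Type} [Fintype V] {N : ℕ} {P Q : (Sym2 V → Fin N) → Prop}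
    (h : ∀ ω, P ω → Q ω) : Pr P ≤ Pr Q := by
  unfold Pr
  apply div_le_div_of_nonneg_right _ (Nat.cast_nonneg _)
  exact_mod_cast Finset.card_le_card (fun ω hω => by
    simp only [mem_filter, mem_univ, true_and] at hω ⊢
    exact h ω hω)

theorem st_P4 (hP : ST_PROD) : ST_P4 := by
  intro V _ N hN E L l t D pick hR hpick f hf c' hc' c hc hcc w hw g hg hgf
  have hgE : g ∈ E := by
    simp only [T, mem_filter] at hg; exact hg.1
  have hgc : c ∈ L g := by
    simp only [T, mem_filter] at hg; exact hg.2.2
  have N0 : (0 : ℝ) < N := by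
    have : 0 < N := by omega
    exact_mod_cast this
  have N2 : (2 : ℝ) ≤ N := by exact_mod_cast hN
  set q : ℝ := 1 - 1 / (N : ℝ) with hq
  have hN1 : 1 / (N : ℝ) ≤ 1 / 2 := one_div_le_one_div_of_le (by norm_num) N2
  have hNpos : 0 < 1 / (N : ℝ) := by positivity
  have q0 : 0 ≤ q := by rw [hq]; linarith
  have q1 : q ≤ 1 := by rw [hq]; linarith
  set A : Sym2 V → Finset (Fin N) := fun e => univ.filter fun a =>
    (e = f → pick e a = some c') ∧ (e = g → pick e a = some c) ∧
      (Adj f e → pick e a ≠ some c') ∧ (Adj g e → pick e a ≠ some c) with hA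
  set B1 := (E.filter fun h => Adj f h ∧ c' ∈ L h).erase g with hB1
  set B2 := (E.filter fun h => Adj g h ∧ c ∈ L h).erase f with hB2
  obtain ⟨k1, t1⟩ := adj_card hR hf hc'
  obtain ⟨k2, -⟩ := adj_card hR hgE hgc
  have b1 : 2 * t - 2 ≤ #B1 + 1 := by
    have : #(E.filter fun h => Adj f h ∧ c' ∈ L h) - 1 ≤ #B1 := Finset.pred_card_le_card_erase
    omega
  have b2 : 2 * t - 2 ≤ #B2 + 1 := by
    have : #(E.filter fun h => Adj g h ∧ c ∈ L h) - 1 ≤ #B2 := Finset.pred_card_le_card_erase
    omega
  have h1 : Pr (fun ω => Ret E pick ω f c' ∧ Ret E pick ω g c) ≤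
      Pr (fun ω : Sym2 V → Fin N => ∀ e ∈ E, ω e ∈ A e) := by
    apply Pr_mono
    rintro ω ⟨⟨-, r1, r2⟩, ⟨-, r3, r4⟩⟩ e he
    simp only [hA, mem_filter, mem_univ, true_and]
    refine ⟨?_, ?_, fun h => r2 e he h, fun h => r4 e he h⟩
    · rintro rfl; exact r1
    · rintro rfl; exact r3
  rw [hP V N (by omega) E A] at h1
  have h2 : ∏ e ∈ E, ((#(A e) : ℝ) / (N : ℝ)) ≤
      ∏ e ∈ E, ((if e = f then 1 / (N : ℝ) else 1) * (if e = g then 1 / (N : ℝ) else 1) *
        (if e ∈ B1 then q else 1) * (if e ∈ B2 then q else 1)) := by
    apply Finset.prod_le_prod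
    · intro e _; positivity
    intro e he
    by_cases ef : e = f
    · have e1 : e ≠ g := fun h => hgf (h ▸ ef)
      have e2 : e ∉ B1 := by
        rw [hB1, mem_erase, mem_filter]; rintro ⟨-, -, ⟨h, -⟩, -⟩; exact h ef.symm
      have e3 : e ∉ B2 := by
        rw [hB2, mem_erase]; rintro ⟨h, -⟩; exact h ef
      rw [if_pos ef, if_neg e1, if_neg e2, if_neg e3, mul_one, mul_one, mul_one]
      apply div_le_div_of_nonneg_right _ N0.le
      have : #(A e) ≤ #(univ.filter fun a => pick e a = some c') :=
        Finset.card_le_card (fun a ha => by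
          simp only [hA, mem_filter, mem_univ, true_and] at ha ⊢
          exact ha.1 ef)
      rw [(hpick e he).1 c' (ef ▸ hc')] at this
      exact_mod_cast this
    · by_cases eg : e = g
      · have e2 : e ∉ B1 := by
          rw [hB1, mem_erase]; rintro ⟨h, -⟩; exact h eg
        have e3 : e ∉ B2 := by
          rw [hB2, mem_erase, mem_filter]; rintro ⟨-, -, ⟨h, -⟩, -⟩; exact h eg.symm
        rw [if_neg ef, if_pos eg, if_neg e2, if_neg e3, mul_one, mul_one, one_mul]
        apply div_le_div_of_nonneg_right _ N0.le
        have : #(A e) ≤ #(univ.filter fun a => pick e a = some c) :=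
          Finset.card_le_card (fun a ha => by
            simp only [hA, mem_filter, mem_univ, true_and] at ha ⊢
            exact ha.2.1 eg)
        rw [(hpick e he).1 c (eg ▸ hgc)] at this
        exact_mod_cast this
      · rw [if_neg ef, if_neg eg, one_mul, one_mul]
        have cN : #(univ : Finset (Fin N)) = N := by simp
        have comp : ∀ d, d ∈ L e → #(univ.filter fun a => ¬ pick e a = some d) = N - 1 := by
          intro d hd
          have h := Finset.card_filter_add_card_filter_not (s := (univ : Finset (Fin N)))
            (fun a => pick e a = some d)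
          rw [(hpick e he).1 d hd, cN] at h
          omega
        have N1 : ((N - 1 : ℕ) : ℝ) / N = q := by
          rw [Nat.cast_sub (by omega), hq]; field_simp; simp
        by_cases m1 : e ∈ B1
        · have m1' := m1
          rw [hB1, mem_erase, mem_filter] at m1'
          by_cases m2 : e ∈ B2
          · have m2' := m2
            rw [hB2, mem_erase, mem_filter] at m2'
            rw [if_pos m1, if_pos m2]
            have hu : A e ⊆ univ \ ((univ.filter fun a => pick e a = some c') ∪
                (univ.filter fun a => pick e a = some c)) := by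
              intro a ha
              simp only [hA, mem_filter, mem_univ, true_and] at ha
              simp only [mem_sdiff, mem_univ, true_and, mem_union, mem_filter, not_or]
              exact ⟨ha.2.2.1 m1'.2.2.1, ha.2.2.2 m2'.2.2.1⟩
            have hd : Disjoint (univ.filter fun a => pick e a = some c')
                (univ.filter fun a => pick e a = some c) := by
              rw [Finset.disjoint_left]
              intro a h1 h2
              simp only [mem_filter, mem_univ, true_and] at h1 h2
              rw [h1] at h2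
              exact hcc (Option.some.inj h2).symm
            have hcard : #(A e) ≤ N - 2 := by
              have h3 := Finset.card_le_card hu
              rw [Finset.card_sdiff_of_subset (Finset.subset_univ _), cN,
                Finset.card_union_of_disjoint hd, (hpick e he).1 c' m1'.2.2.2,
                (hpick e he).1 c m2'.2.2.2] at h3
              omega
            have h4 : (#(A e) : ℝ) ≤ N - 2 := by
              have : ((N - 2 : ℕ) : ℝ) = N - 2 := by rw [Nat.cast_sub hN]; norm_num
              rw [← this]; exact_mod_cast hcard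
            calc (#(A e) : ℝ) / N ≤ (N - 2) / N := div_le_div_of_nonneg_right h4 N0.le
              _ ≤ q * q := by
                rw [hq]
                have : ((N : ℝ) - 2) / N = 1 - 2 * (1 / N) := by field_simp
                rw [this]
                nlinarith [hNpos]
          · rw [if_pos m1, if_neg m2, mul_one, ← N1]
            apply div_le_div_of_nonneg_right _ N0.le
            have : #(A e) ≤ N - 1 := by
              rw [← comp c' m1'.2.2.2]
              exact Finset.card_le_card (fun a ha => by
                simp only [hA, mem_filter, mem_univ, true_and] at ha ⊢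
                exact ha.2.2.1 m1'.2.2.1)
            exact_mod_cast this
        · by_cases m2 : e ∈ B2
          · have m2' := m2
            rw [hB2, mem_erase, mem_filter] at m2'
            rw [if_neg m1, if_pos m2, one_mul, ← N1]
            apply div_le_div_of_nonneg_right _ N0.le
            have : #(A e) ≤ N - 1 := by
              rw [← comp c m2'.2.2.2]
              exact Finset.card_le_card (fun a ha => by
                simp only [hA, mem_filter, mem_univ, true_and] at ha ⊢
                exact ha.2.2.2 m2'.2.2.1)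
            exact_mod_cast this
          · rw [if_neg m1, if_neg m2, one_mul]
            rw [div_le_one N0]
            have : #(A e) ≤ N := by
              have := Finset.card_le_univ (A e)
              simpa using this
            exact_mod_cast this
  have h3 : ∏ e ∈ E, ((if e = f then 1 / (N : ℝ) else 1) * (if e = g then 1 / (N : ℝ) else 1) *
        (if e ∈ B1 then q else 1) * (if e ∈ B2 then q else 1)) =
      (1 / N) * (1 / N) * q ^ #B1 * q ^ #B2 := by
    rw [Finset.prod_mul_distrib, Finset.prod_mul_distrib, Finset.prod_mul_distrib]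
    have s1 : B1 ⊆ E := (Finset.erase_subset _ _).trans (Finset.filter_subset _ _)
    have s2 : B2 ⊆ E := (Finset.erase_subset _ _).trans (Finset.filter_subset _ _)
    rw [Finset.prod_ite_eq' E f (fun _ => 1 / (N : ℝ)), if_pos hf,
      Finset.prod_ite_eq' E g (fun _ => 1 / (N : ℝ)), if_pos hgE,
      Finset.prod_ite_mem, Finset.prod_ite_mem, Finset.inter_eq_right.2 s1,
      Finset.inter_eq_right.2 s2, Finset.prod_const, Finset.prod_const]
  rw [h3] at h2
  have h4 := h1.trans h2
  have p1 : q ^ (#B1 + 1) ≤ q ^ (2 * t - 2) := pow_le_pow_of_le_one q0 q1 b1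
  have p2 : q ^ (#B2 + 1) ≤ q ^ (2 * t - 2) := pow_le_pow_of_le_one q0 q1 b2
  calc Pr (fun ω => Ret E pick ω f c' ∧ Ret E pick ω g c) * q ^ 2
      ≤ ((1 / N) * (1 / N) * q ^ #B1 * q ^ #B2) * q ^ 2 :=
        mul_le_mul_of_nonneg_right h4 (by positivity)
    _ = (1 / N) * (1 / N) * (q ^ (#B1 + 1) * q ^ (#B2 + 1)) := by ring
    _ ≤ (1 / N) * (1 / N) * (q ^ (2 * t - 2) * q ^ (2 * t - 2)) := by
        apply mul_le_mul_of_nonneg_left _ (by positivity)
        exact mul_le_mul p1 p2 (by positivity) (by positivity)
    _ = th N t ^ 2 := by rw [th, ← hq]; ring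

end

end Pool.Agent.Helper17.NB
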